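import Pool.Agent.helper47.CL.SpecD

set_option autoImplicit false

namespace Pool.Agent.helper41.CL

open Finset

theorem ZI (h1 : ZH_stmt) : ZI_stmt := by
  intro α _ V E a y hG hy hiso hdeg hno
  have minc : ∀ (F : Finset (Finset α)) (p : α) (e : Finset α), e ∈ inc F p ↔ e ∈ F ∧ p ∈ e := by
    intro F p e
    unfold inc
    rw [mem_filter]
  obtain ⟨e0, e1, he0, he1, hne⟩ := Finset.one_lt_card_iff.mp (show 1 < #(inc E a) by omega)
  rw [minc] at he0
  obtain ⟨he0E, hae0⟩ := he0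
  obtain ⟨hsub, hcard⟩ := hG e0 he0E
  obtain ⟨c, hca, hec⟩ : ∃ c, a ≠ c ∧ e0 = {a, c} := by
    obtain ⟨u, v, huv, rfl⟩ := Finset.card_eq_two.mp hcard
    rw [mem_insert, mem_singleton] at hae0
    rcases hae0 with h | h
    · exact ⟨v, by rw [h]; exact huv, by rw [h]⟩
    · exact ⟨u, by rw [h]; exact huv.symm, by rw [h, Finset.pair_comm]⟩
  subst hec
  have hcdeg : 1 < #(inc E c) := by
    by_contra hlt
    refine hno ⟨c, a, hca.symm, by rw [Finset.pair_comm]; exact he0E, ?_, hdeg⟩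
    intro e he hce
    have h2 : #(inc E c) ≤ 1 := by omega
    have h3 := Finset.card_le_one.mp h2 e ((minc E c e).mpr ⟨he, hce⟩) {a, c} ((minc E c {a, c}).mpr ⟨he0E, by simp⟩)
    rw [h3, Finset.pair_comm]
  obtain ⟨hG', hcard', hind⟩ := h1 α V E a c y hG he0E hca hy hiso
  refine ⟨insert {y, c} (E.erase {a, c}), hG', hcard', ⟨y, c, ?_, ?_, ?_, ?_⟩, hind⟩
  · rintro rfl
    exact hiso _ he0E (by simp)
  · exact mem_insert_self _ _
  · intro e he hye
    rw [mem_insert] at he
    rcases he with h | h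
    · exact h
    · exact absurd hye (hiso e (mem_of_mem_erase h))
  · obtain ⟨f, hf, hfne⟩ : ∃ f ∈ inc E c, f ≠ {a, c} := by
      by_contra hcon
      push Not at hcon
      have : #(inc E c) ≤ 1 := Finset.card_le_one.mpr (fun u hu v hv => by rw [hcon u hu, hcon v hv])
      omega
    rw [minc] at hf
    have hlt : 1 < #(inc (insert {y, c} (E.erase {a, c})) c) := by
      rw [Finset.one_lt_card_iff]
      refine ⟨{y, c}, f, (minc _ _ _).mpr ⟨mem_insert_self _ _, by simp⟩,
        (minc _ _ _).mpr ⟨mem_insert_of_mem (mem_erase.mpr ⟨hfne, hf.1⟩), hf.2⟩, ?_⟩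
      rintro rfl
      exact hiso _ hf.1 (by simp)
    exact hlt

end Pool.Agent.helper41.CL
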